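import Mathlib
import Pool.Agent.R520.SumC

/-!
# MP_4546c4_nt: almost all real numbers have continuum many representations, and the rational
numbers with at least `k` representations are dense
-/

set_option autoImplicit false

open MeasureTheory Filter Topology

namespace Pool.Agent.Results.MP_4546c4_nt.ManyRepresentations

open Pool.Agent.R520.SumA

theorem result :
    (∀ᵐ x : ℝ, 0 < x → x ≤ 2 → Cardinal.mk (Reps x) = Cardinal.continuum) ∧
    ∀ (k : ℕ) (a b : ℝ), 0 ≤ a → a < b → b ≤ 2 →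
      ∃ q : ℚ, a < (q : ℝ) ∧ (q : ℝ) < b ∧ (k : ℕ∞) ≤ (Reps (q : ℝ)).encard := by
  refine ⟨?_, ?_⟩
  · filter_upwards [ae_br] with x hx h0 h2
    exact mk_reps h0 h2 hx
  · intro k a b ha hab hb
    obtain ⟨x, ⟨hxa, hxb⟩, hx⟩ : ∃ x ∈ Set.Ioo a b, Br x := by
      by_contra hcon
      push Not at hcon
      have h1 : Set.Ioo a b ⊆ {x | Br x}ᶜ := fun x hx hx' => hcon x hx hx'
      have h2 : volume (Set.Ioo a b) = 0 := measure_mono_null h1 (by
        have := ae_br
        rwa [ae_iff] at this)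
      rw [Real.volume_Ioo, ENNReal.ofReal_eq_zero] at h2
      linarith
    obtain ⟨n0, hn0⟩ := card_unbdd (by linarith) (by linarith) hx k
    obtain ⟨n1, hn1⟩ := exists_pow_lt_of_lt_one (show 0 < b - x by linarith)
      (show (1 / 2 : ℝ) < 1 by norm_num)
    set n := max n0 n1 with hn
    have h2 : (0 : ℝ) < 2 ^ n := by positivity
    have h3 : (1 : ℝ) / 2 ^ n < b - x := by
      have h4 : (1 / 2 : ℝ) ^ n ≤ (1 / 2) ^ n1 :=
        pow_le_pow_of_le_one (by norm_num) (by norm_num) (le_max_right _ _)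
      rw [one_div, ← inv_pow, ← one_div]
      linarith
    refine ⟨(⌈(2 : ℝ) ^ n * x⌉ : ℚ) / 2 ^ n, ?_, ?_, ?_⟩
    · push_cast
      rw [lt_div_iff₀ h2]
      have := Int.le_ceil ((2 : ℝ) ^ n * x)
      nlinarith
    · push_cast
      rw [div_lt_iff₀ h2]
      have h5 := Int.ceil_lt_add_one ((2 : ℝ) ^ n * x)
      rw [div_lt_iff₀ h2] at h3
      nlinarith
    · have h5 : P n x = P n (((⌈(2 : ℝ) ^ n * x⌉ : ℚ) / 2 ^ n : ℚ) : ℝ) := by
        apply P_congr
        push_cast
        rw [mul_div_cancel₀ _ h2.ne', Int.ceil_intCast]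
      have h6 := card_le_encard n (((⌈(2 : ℝ) ^ n * x⌉ : ℚ) / 2 ^ n : ℚ) : ℝ)
      rw [← h5] at h6
      refine le_trans ?_ h6
      exact_mod_cast hn0.trans (card_mono (le_max_left _ _) x)

end Pool.Agent.Results.MP_4546c4_nt.ManyRepresentations
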